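import Mathlib
import Pool.Agent.Y242.RadialE

set_option autoImplicit false

open Complex Metric Set
open scoped ENNReal

namespace Pool.Agent.Results.MP_d4bd36_an.RadialReach

/-- The class `S`: functions holomorphic and injective on the open unit disc with `f 0 = 0` and
`f' 0 = 1`. -/
def ClassS : Set (ℂ → ℂ) :=
  {f | DifferentiableOn ℂ f (ball 0 1) ∧ InjOn f (ball 0 1) ∧ f 0 = 0 ∧ deriv f 0 = 1}

/-- The radial reach `ρ(f)`: the supremum in `(0, ∞]` of the lengths `l` of the half-open segments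
`{t e^{iθ} : 0 ≤ t < l}` contained in the image of the unit disc. -/
noncomputable def reach (f : ℂ → ℂ) : ℝ≥0∞ :=
  sSup {x : ℝ≥0∞ | ∃ l : ℝ, 0 < l ∧ x = ENNReal.ofReal l ∧
    ∃ θ : ℝ, ∀ t : ℝ, 0 ≤ t → t < l → (t : ℂ) * exp (θ * I) ∈ f '' ball 0 1}

/-- `λ = inf ρ(f) = 1`; the infimum is a minimum, attained exactly by the identity. -/
theorem result :
    sInf (reach '' ClassS) = 1 ∧ IsLeast (reach '' ClassS) 1 ∧
      ∀ f ∈ ClassS, (reach f = 1 ↔ ∀ z ∈ ball (0 : ℂ) 1, f z = z) := by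
  have hS : ∀ f ∈ ClassS, Pool.Agent.Y242.Radial.InS f := fun f hf => ⟨hf.1, hf.2.1, hf.2.2.1, hf.2.2.2⟩
  have hL : IsLeast (reach '' ClassS) 1 := by
    constructor
    · refine ⟨fun z => z, ⟨differentiableOn_id, fun _ _ _ _ h => h, rfl, by simp⟩, ?_⟩
      exact Pool.Agent.Y242.Radial.reach_of_id fun _ _ => rfl
    · rintro _ ⟨f, hf, rfl⟩
      exact Pool.Agent.Y242.Radial.one_le_reach (hS f hf)
  refine ⟨hL.csInf_eq, hL, fun f hf => ⟨fun h => ?_, fun h => ?_⟩⟩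
  · exact Pool.Agent.Y242.Radial.id_of_reach (hS f hf) (le_of_eq h)
  · exact Pool.Agent.Y242.Radial.reach_of_id h

end Pool.Agent.Results.MP_d4bd36_an.RadialReach
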